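import Pool.Agent.H63.IsoSh

set_option autoImplicit false
open Filter Topology

namespace Pool.Agent.Results.MP_86c582_an.ZeroEntropy
noncomputable section
open Classical

/-- the sup norm on the lattice -/
def nm {d : ℕ} (v : Fin d → ℤ) : ℕ := Finset.univ.sup fun i => (v i).natAbs

/-- the distance of two configurations -/
def dl {d : ℕ} (x y : (Fin d → ℤ) → ℤ) : ℝ :=
  if x = y then 0 else (1 / 2) ^ sInf (nm '' {v | x v ≠ y v})

/-- the Hausdorff distance of two sets of configurations -/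
def dH {d : ℕ} (X Z : Set ((Fin d → ℤ) → ℤ)) : ℝ :=
  max (⨆ x : X, ⨅ z : Z, dl x.1 z.1) (⨆ z : Z, ⨅ x : X, dl x.1 z.1)

def sh {d : ℕ} (u : Fin d → ℤ) (x : (Fin d → ℤ) → ℤ) : (Fin d → ℤ) → ℤ := fun v => x (u + v)

/-- transitive shifts over finite alphabets of integers -/
def TransShift {d : ℕ} (X : Set ((Fin d → ℤ) → ℤ)) : Prop :=
  (∃ A : Finset ℤ, ∀ x ∈ X, ∀ v, x v ∈ A) ∧ IsCompact X ∧ (∀ u, ∀ x ∈ X, sh u x ∈ X) ∧
    ∃ x ∈ X, X ⊆ closure (Set.range fun u => sh u x)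

/-- the cube of side `n` at the origin -/
def cube (d n : ℕ) : Finset (Fin d → ℤ) := Fintype.piFinset fun _ => Finset.Ico (0 : ℤ) n

/-- the patterns on the cube that appear in `X` -/
def lang {d : ℕ} (X : Set ((Fin d → ℤ) → ℤ)) (n : ℕ) : Set (cube d n → ℤ) :=
  (fun (x : (Fin d → ℤ) → ℤ) (v : cube d n) => x v) '' X

open Pool.Agent.H63.IsoSh

theorem dl_nonneg {d : ℕ} (x y : (Fin d → ℤ) → ℤ) : 0 ≤ dl x y := by
  unfold dl; split_ifs <;> positivity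

theorem dl_le {d : ℕ} (r : ℕ) {x y : (Fin d → ℤ) → ℤ} (h : ∀ v ∈ bx d (-r) (r + 1), x v = y v) :
    dl x y ≤ (1 / 2) ^ r := by
  unfold dl
  split_ifs with e
  · positivity
  · refine pow_le_pow_of_le_one (by norm_num) (by norm_num) (le_csInf ?_ ?_)
    · obtain ⟨v, hv⟩ := Function.ne_iff.1 e
      exact ⟨_, v, hv, rfl⟩
    · rintro _ ⟨v, hv, rfl⟩
      by_contra c
      refine hv (h v (mem_bx.2 fun i => ?_))
      have : (v i).natAbs ≤ nm v := Finset.le_sup (f := fun i => (v i).natAbs) (Finset.mem_univ i)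
      omega

theorem result (d : ℕ) (hd : 1 ≤ d) (X : Set ((Fin d → ℤ) → ℤ)) (hX : TransShift X)
    (iso : ∃ ε : ℝ, 0 < ε ∧ ∀ Y, TransShift Y → dH X Y < ε → Y = X) :
    Tendsto (fun n : ℕ => Real.log (lang X n).ncard / (n : ℝ) ^ d) atTop (𝓝 0) := by
  obtain ⟨⟨A, hA⟩, -, hs, x, hx, hd'⟩ := hX
  obtain ⟨ε, h0, iso⟩ := iso
  obtain ⟨r, hr⟩ := exists_pow_lt_of_lt_one h0 (show (1 / 2 : ℝ) < 1 by norm_num)
  refine ent_zero hd hA hs r fun N => ?_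
  have key : ∀ (w : G d → ℝ), (∀ v, 0 < w v) → (∀ u v, w (u + v) = w u * w v) →
      ∀ p : G d → ℤ, (fun v : bx d 0 N => p v) ∈ Fq X N → ∀ q ∈ X,
      (∀ v ∈ bx d 0 N, v ∉ bx d (2 * r) (N - 2 * r) → p v = q v) →
      ¬ 0 < ∑ v ∈ bx d 0 N, w v * (p v - q v) := by
    intro w w0 w1 p hp q hq e w2
    obtain ⟨y, M, h1, h2, h3⟩ := elim hA hs hx hd' r N hq e w w0 w1 w2
    have := iso (closure (Set.range fun u v => y (u + v))) ⟨⟨A, fun z hz => (h2 z hz).1⟩, h1,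
      fun u z hz => map_mem_closure (f := sh u) (by unfold sh; fun_prop) hz (by
        rintro _ ⟨t, rfl⟩; exact ⟨t + u, funext fun v => by simp [sh, add_assoc]⟩),
      y, subset_closure ⟨0, by simp⟩, le_rfl⟩ (lt_of_le_of_lt (max_le
        (Real.iSup_le (fun z => ?_) (by positivity)) (Real.iSup_le (fun z => ?_) (by positivity))) hr)
    · obtain ⟨z, hz, s, a, b⟩ := hp M
      exact absurd ((h2 z (this ▸ hz)).2.2 s fun u hu v hv => b u hu ⟨v, hv⟩) (by omega)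
    · obtain ⟨u, hu⟩ := h3 z.1 z.2
      exact ciInf_le_of_le ⟨0, by rintro _ ⟨a, rfl⟩; exact dl_nonneg _ _⟩
        ⟨_, subset_closure ⟨u, rfl⟩⟩ (dl_le r fun v hv => (hu v hv).symm)
    · obtain ⟨u, a, hu⟩ := (h2 z.1 z.2).2.1
      exact ciInf_le_of_le ⟨0, by rintro _ ⟨a, rfl⟩; exact dl_nonneg _ _⟩
        ⟨u, a⟩ (dl_le r fun v hv => (hu v hv).symm)
  have rep : ∀ π ∈ Fq X N, ∃ p ∈ X, (fun v : bx d 0 N => p v) = π := fun π hπ => by
    obtain ⟨x, hx, s, a, b⟩ := hπ 0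
    obtain ⟨u, hu⟩ := Finset.card_pos.1 a
    exact ⟨_, hs u x hx, funext (b u hu)⟩
  intro π hπ π' hπ' e
  obtain ⟨p, hp, rfl⟩ := rep π hπ
  obtain ⟨q, hq, rfl⟩ := rep π' hπ'
  by_contra c
  obtain ⟨v, hv⟩ := Function.ne_iff.1 c
  obtain ⟨w, w0, w1, w2⟩ := ex_weight (bx d 0 N) (fun v => (p v : ℝ) - q v)
    ⟨v, v.2, sub_ne_zero.2 (by exact_mod_cast hv)⟩
  rcases lt_or_gt_of_ne w2 with h | h
  · refine key w w0 w1 q hπ' p hp (fun v a b => (e ⟨v, a⟩ b).symm) ?_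
    simp only [mul_sub, Finset.sum_sub_distrib] at h ⊢
    linarith
  · exact key w w0 w1 p hπ q hq (fun v a b => e ⟨v, a⟩ b) h

end
end Pool.Agent.Results.MP_86c582_an.ZeroEntropy
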